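import Pool.Agent.Helper55.FR.GoalsA

/-!
# The difference region is small
-/

namespace Pool.Agent.Helper32.FR

open Finset
open Pool.Agent.Helper55.FR

/-- Both labels in `{T, I}` and different. -/
def inM (a c : Lab) : Prop := ¬ isK a ∧ ¬ isK c ∧ a ≠ c

instance (a c : Lab) : Decidable (inM a c) := by unfold inM; infer_instance

lemma l2 : ∀ a b c d : Lab, a ≠ Lab.O → b ≠ Lab.O → c ≠ Lab.O → d ≠ Lab.O →
    ¬ inM a c → inM b d → spc a b ∨ spc c d := by decide

lemma spc_comm : ∀ a b : Lab, spc a b → spc b a := by decide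

lemma l1 (a b c d : Lab) (ha : a ≠ Lab.O) (hb : b ≠ Lab.O) (hc : c ≠ Lab.O) (hd : d ≠ Lab.O)
    (h1 : inM a c) (h2 : ¬ inM b d) : spc a b ∨ spc c d :=
  (l2 b a d c hb ha hd hc h2 h1).imp (spc_comm _ _) (spc_comm _ _)

lemma l3 : ∀ a b c d : Lab, a ≠ Lab.O → b ≠ Lab.O → c ≠ Lab.O → d ≠ Lab.O →
    inM a c → ¬ inM b d →
      (isK d ∧ ¬ isK c) ∨ (isK b ∧ ¬ isK a) ∨ (¬ isK a ∧ b = a) ∨ (¬ isK c ∧ d = c) := by decide

lemma l4 : ∀ a b : Lab, a ≠ Lab.O → ¬ isK a → b = a → (a = Lab.T ∧ b = Lab.T) ∨ bad a b := by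
  decide

lemma l5 : ∀ a c : Lab, a ≠ Lab.O → c ≠ Lab.O → (isK c ∨ a ≠ c) → isK c ∨ isK a ∨ inM a c := by
  decide

lemma l6 : ∀ a c : Lab, a ≠ Lab.O → c ≠ Lab.O → ¬ (inM a c ∧ inM a (flip c)) := by decide

lemma flip_isK : ∀ a : Lab, isK (flip a) ↔ isK a := by decide
lemma flip_spc : ∀ a b : Lab, spc (flip a) (flip b) ↔ spc a b := by decide
lemma flip_eq : ∀ a b : Lab, flip a = flip b ↔ a = b := by decide
lemma flip_O : ∀ a : Lab, a ≠ Lab.O → flip a ≠ Lab.O := by decide

section

variable {V : Type} [Fintype V] [DecidableEq V]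

lemma ref_flip {n : Equiv.Perm V} {m : V → V} {h : ℝ} {g b : ℕ} {ρ : V → Lab}
    (hr : Ref n m h g b ρ) : Ref n m h g b (Pool.Agent.Helper55.FR.flip ∘ ρ) := by
  have e1 : Ks (Pool.Agent.Helper55.FR.flip ∘ ρ) = Ks ρ := by
    ext x; simp only [Ks, mem_filter, Function.comp, flip_isK]
  have e2 : Spc n (Pool.Agent.Helper55.FR.flip ∘ ρ) = Spc n ρ := by
    ext x; simp only [Spc, mem_filter, Function.comp, flip_spc]
  have e3 : MM m (Pool.Agent.Helper55.FR.flip ∘ ρ) = MM m ρ := by
    ext x; simp only [MM, mem_filter, Function.comp, flip_isK, flip_eq]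
  have e4 : MK m (Pool.Agent.Helper55.FR.flip ∘ ρ) = MK m ρ := by
    ext x; simp only [MK, mem_filter, Function.comp, flip_isK]
  refine ⟨fun x => flip_O _ (hr.noO x), ?_, ?_, ?_⟩
  · rw [e1]; exact hr.cK
  · rw [e2]; exact hr.cS
  · rw [e3, e4]; exact hr.cM

/-- Twice the number of exits is the number of exits and entries. -/
lemma two_dF (n : Equiv.Perm V) (M : Finset V) :
    2 * dF n M = (univ.filter fun x => x ∈ M ∧ n x ∉ M).card +
      (univ.filter fun x => x ∉ M ∧ n x ∈ M).card := by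
  have h1 : dF n M = (univ.filter fun x => x ∈ M ∧ n x ∉ M).card := by
    unfold dF
    congr 1
    ext x
    simp
  have h2 : (univ.filter fun x => n x ∈ M).card = M.card := by
    have : (univ.filter fun x => n x ∈ M) = M.map n.symm.toEmbedding := by
      ext x
      simp only [mem_filter, mem_univ, true_and, mem_map_equiv, Equiv.symm_symm]
    rw [this, card_map]
  have h3 : (univ.filter fun x => n x ∈ M).card =
      (univ.filter fun x => x ∈ M ∧ n x ∈ M).card +
        (univ.filter fun x => x ∉ M ∧ n x ∈ M).card := by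
    rw [← card_union_of_disjoint]
    · congr 1
      ext x
      simp only [mem_filter, mem_univ, true_and, mem_union]
      tauto
    · rw [disjoint_left]
      intro x hx hx'
      simp only [mem_filter, mem_univ, true_and] at hx hx'
      exact hx'.1 hx.1
  have h4 : M.card = (univ.filter fun x => x ∈ M ∧ n x ∈ M).card +
        (univ.filter fun x => x ∈ M ∧ n x ∉ M).card := by
    rw [← card_union_of_disjoint]
    · congr 1
      ext x
      simp only [mem_filter, mem_univ, true_and, mem_union]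
      tauto
    · rw [disjoint_left]
      intro x hx hx'
      simp only [mem_filter, mem_univ, true_and] at hx hx'
      exact hx'.2 hx.2
  omega

/-- One half of the statement. -/
lemma dif_half {n : Equiv.Perm V} {m : V → V} {h : ℝ} {g b : ℕ} {f ρ : V → Lab}
    (hc : Cub n m) (h0 : 0 < h) (hg : 24 ≤ h * g) (he : Exp n m h) (hf : Glo n m h g f)
    (hr : Ref n m h g b ρ) (hb : b ≤ (Bad m f).card)
    (hM : 2 * (univ.filter fun x => inM (f x) (ρ x)).card ≤ Fintype.card V) :
    h * (Dif ρ f).card ≤ 16 * (Bad m f).card := by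
  set M := univ.filter fun x => inM (f x) (ρ x) with hMdef
  have memM : ∀ x, x ∈ M ↔ inM (f x) (ρ x) := fun x => by
    rw [hMdef, mem_filter]
    simp
  have hbR : (b : ℝ) ≤ (Bad m f).card := by exact_mod_cast hb
  -- the region
  have hD : Dif ρ f ⊆ Ks ρ ∪ (Ks f ∪ M) := by
    intro x hx
    rw [Dif, mem_filter] at hx
    rw [mem_union, mem_union, Ks, Ks, mem_filter, mem_filter, memM]
    rcases l5 (f x) (ρ x) (hf.noO x) (hr.noO x) hx.2 with h1 | h1 | h1
    · exact Or.inl ⟨mem_univ _, h1⟩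
    · exact Or.inr (Or.inl ⟨mem_univ _, h1⟩)
    · exact Or.inr (Or.inr h1)
  have hDc : (Dif ρ f).card ≤ (Ks ρ).card + ((Ks f).card + M.card) :=
    (card_le_card hD).trans ((card_union_le _ _).trans
      (Nat.add_le_add_left (card_union_le _ _) _))
  -- forward edges
  have hF : 2 * dF n M ≤ (Spc n f).card + (Spc n ρ).card := by
    rw [two_dF]
    rw [← card_union_of_disjoint (by
      rw [disjoint_left]
      intro x hx hx'
      simp only [mem_filter, mem_univ, true_and] at hx hx'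
      exact hx'.1 hx.1)]
    refine (card_le_card ?_).trans (card_union_le (Spc n f) (Spc n ρ))
    intro x hx
    simp only [mem_union, mem_filter, mem_univ, true_and, memM] at hx
    rw [mem_union, Spc, Spc, mem_filter, mem_filter]
    have h1 : spc (f x) (f (n x)) ∨ spc (ρ x) (ρ (n x)) := by
      rcases hx with ⟨h2, h3⟩ | ⟨h2, h3⟩
      · exact l1 _ _ _ _ (hf.noO x) (hf.noO _) (hr.noO x) (hr.noO _) h2 h3
      · exact l2 _ _ _ _ (hf.noO x) (hf.noO _) (hr.noO x) (hr.noO _) h2 h3
    rcases h1 with h1 | h1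
    · exact Or.inl ⟨mem_univ _, h1⟩
    · exact Or.inr ⟨mem_univ _, h1⟩
  -- matching edges
  have hdM : dM m M ≤ ((MK m ρ).card + (MK m f).card) + ((MM m f).card + (MM m ρ).card) := by
    have h1 : (M.filter fun x => m x ∉ M) ⊆
        ((MK m ρ).image m ∪ (MK m f).image m) ∪ (MM m f ∪ MM m ρ) := by
      intro x hx
      rw [mem_filter, memM, memM] at hx
      have h2 := l3 _ _ _ _ (hf.noO x) (hf.noO (m x)) (hr.noO x) (hr.noO (m x)) hx.1 hx.2
      rw [mem_union, mem_union, mem_union, mem_image, mem_image, MM, MM, mem_filter, mem_filter]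
      rcases h2 with h2 | h2 | h2 | h2
      · refine Or.inl (Or.inl ⟨m x, ?_, hc.mm x⟩)
        rw [MK, mem_filter, hc.mm x]
        exact ⟨mem_univ _, h2⟩
      · refine Or.inl (Or.inr ⟨m x, ?_, hc.mm x⟩)
        rw [MK, mem_filter, hc.mm x]
        exact ⟨mem_univ _, h2⟩
      · exact Or.inr (Or.inl ⟨mem_univ _, h2⟩)
      · exact Or.inr (Or.inr ⟨mem_univ _, h2⟩)
    unfold dM
    refine (card_le_card h1).trans ((card_union_le _ _).trans (Nat.add_le_add ?_ ?_))
    · exact (card_union_le _ _).trans (Nat.add_le_add card_image_le card_image_le)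
    · exact card_union_le _ _
  have hMMf : (MM m f).card ≤ (TT m f).card + (Bad m f).card := by
    refine (card_le_card ?_).trans (card_union_le _ _)
    intro x hx
    rw [MM, mem_filter] at hx
    rw [mem_union, TT, Bad, mem_filter, mem_filter]
    rcases l4 (f x) (f (m x)) (hf.noO x) hx.2.1 hx.2.2 with h1 | h1
    · exact Or.inl ⟨mem_univ _, h1⟩
    · exact Or.inr ⟨mem_univ _, h1⟩
  have hexp := he M hM
  -- real arithmetic
  have hF' : (2 : ℝ) * dF n M ≤ (Spc n f).card + (Spc n ρ).card := by exact_mod_cast hF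
  have hdM' : (dM m M : ℝ) ≤ ((MK m ρ).card + (MK m f).card) + ((MM m f).card + (MM m ρ).card) := by
    exact_mod_cast hdM
  have hMMf' : ((MM m f).card : ℝ) ≤ (TT m f).card + (Bad m f).card := by exact_mod_cast hMMf
  have hcT : ((TT m f).card : ℝ) + (MK m f).card ≤ 3 * (Bad m f).card := by
    exact_mod_cast hf.cT
  have hcM : ((MM m ρ).card : ℝ) + (MK m ρ).card ≤ 4 * b := by exact_mod_cast hr.cM
  have hS1 : 24 * ((Spc n f).card : ℝ) ≤ 8 * (Bad m f).card :=
    (mul_le_mul_of_nonneg_right hg (Nat.cast_nonneg _)).trans hf.cS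
  have hS2 : 24 * ((Spc n ρ).card : ℝ) ≤ 8 * b :=
    (mul_le_mul_of_nonneg_right hg (Nat.cast_nonneg _)).trans hr.cS
  have hK1 := hf.cK
  have hK2 := hr.cK
  have hDc' : ((Dif ρ f).card : ℝ) ≤ (Ks ρ).card + ((Ks f).card + M.card) := by
    exact_mod_cast hDc
  have hfin : h * (Dif ρ f).card ≤ h * ((Ks ρ).card + ((Ks f).card + M.card)) :=
    mul_le_mul_of_nonneg_left hDc' h0.le
  have hbad : (0 : ℝ) ≤ (Bad m f).card := Nat.cast_nonneg _
  nlinarith

end

/-- DIF. -/
theorem dif : DifStmt := by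
  intro V _ _ n m h g b f ρ hc h0 _ hg he hf hr hb
  have hdis : Disjoint (univ.filter fun x => inM (f x) (ρ x))
      (univ.filter fun x => inM (f x) ((Pool.Agent.Helper55.FR.flip ∘ ρ) x)) := by
    rw [disjoint_left]
    intro x hx hx'
    rw [mem_filter] at hx hx'
    exact l6 (f x) (ρ x) (hf.noO x) (hr.noO x) ⟨hx.2, hx'.2⟩
  have hcard : (univ.filter fun x => inM (f x) (ρ x)).card +
      (univ.filter fun x => inM (f x) ((Pool.Agent.Helper55.FR.flip ∘ ρ) x)).card ≤ Fintype.card V := by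
    rw [← card_union_of_disjoint hdis]
    exact card_le_univ _
  rcases le_total (univ.filter fun x => inM (f x) (ρ x)).card
      (univ.filter fun x => inM (f x) ((Pool.Agent.Helper55.FR.flip ∘ ρ) x)).card with h1 | h1
  · left
    exact dif_half hc h0 hg he hf hr hb (by omega)
  · right
    exact dif_half hc h0 hg he hf (ref_flip hr) hb (by omega)

end Pool.Agent.Helper32.FR
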