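import Pool.Agent.Helper92.FR.GoalsA

/-!
# Moments of the image law
-/

namespace Pool.Agent.Helper32.FR

open MeasureTheory Pool.Agent.Helper92.FR ProbabilityTheory

noncomputable section

variable {N d : ℕ}

/-- The coefficients. -/
def dlt (C : Fin N → Fin d → ℝ) (S : Fin d → ℝ) (T : Matrix (Fin d) (Fin d) ℝ) (th : Fin d → ℝ)
    (j : Fin N ⊕ Fin d) : ℝ := ∑ i, th i * ∑ i', T i i' * col C S j i'

theorem lin_eq (C : Fin N → Fin d → ℝ) (S e lam : Fin d → ℝ) (T : Matrix (Fin d) (Fin d) ℝ)
    (th : Fin d → ℝ) (z : Fin N ⊕ Fin d → ℝ) :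
    ∑ i, th i * (YY C S e T z i - (T.mulVec (gg C S e lam)) i) =
      ∑ j, dlt C S T th j * (z j - mm (aa C S lam j)) := by
  have h1 : ∀ i, YY C S e T z i - (T.mulVec (gg C S e lam)) i =
      ∑ j, (∑ i', T i i' * col C S j i') * (z j - mm (aa C S lam j)) := by
    intro i
    simp only [YY, Matrix.mulVec, dotProduct, gg]
    rw [← Finset.sum_sub_distrib]
    have : ∀ i', T i i' * ((∑ j, col C S j i' * z j) - e i') -
        T i i' * ((∑ j, mm (aa C S lam j) * col C S j i') - e i') =
        ∑ j, T i i' * col C S j i' * (z j - mm (aa C S lam j)) := by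
      intro i'
      rw [← mul_sub, sub_sub_sub_cancel_right, ← Finset.sum_sub_distrib, Finset.mul_sum]
      refine Finset.sum_congr rfl fun j _ => ?_
      ring
    rw [Finset.sum_congr rfl fun i' _ => this i', Finset.sum_comm]
    refine Finset.sum_congr rfl fun j _ => ?_
    rw [Finset.sum_mul]
  simp only [h1, dlt]
  simp only [Finset.mul_sum, Finset.sum_mul]
  rw [Finset.sum_comm]
  refine Finset.sum_congr rfl fun j _ => ?_
  refine Finset.sum_congr rfl fun i _ => ?_
  refine Finset.sum_congr rfl fun i' _ => ?_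
  ring

theorem quad_eq (C : Fin N → Fin d → ℝ) (S lam : Fin d → ℝ) (T : Matrix (Fin d) (Fin d) ℝ)
    (h : Fin d → ℝ) (hT : T * HH C S lam * T.transpose = Matrix.diagonal h) (th : Fin d → ℝ) :
    ∑ j, (1 / (1 + |aa C S lam j|)) ^ 2 * dlt C S T th j ^ 2 = ∑ i, h i * th i ^ 2 := by
  have h1 : ∑ i, h i * th i ^ 2 = ∑ i, ∑ k, th i * (T * HH C S lam * T.transpose) i k * th k := by
    rw [hT]
    refine Finset.sum_congr rfl fun i _ => ?_
    rw [Finset.sum_eq_single i]
    · rw [Matrix.diagonal_apply_eq]; ring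
    · intro k _ hk
      rw [Matrix.diagonal_apply_ne _ (Ne.symm hk)]; ring
    · simp
  rw [h1]
  have h2 : ∀ i k, (T * HH C S lam * T.transpose) i k =
      ∑ j, (1 / (1 + |aa C S lam j|)) ^ 2 * ((∑ i', T i i' * col C S j i') *
        (∑ k', T k k' * col C S j k')) := by
    intro i k
    simp only [Matrix.mul_apply, HH, Matrix.transpose_apply]
    simp only [Finset.sum_mul, Finset.mul_sum]
    rw [Finset.sum_comm]
    simp_rw [Finset.sum_comm (s := (Finset.univ : Finset (Fin d)))
      (t := (Finset.univ : Finset (Fin N ⊕ Fin d)))]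
    refine Finset.sum_congr rfl fun j _ => ?_
    rw [Finset.sum_comm]
    refine Finset.sum_congr rfl fun i' _ => ?_
    refine Finset.sum_congr rfl fun k' _ => ?_
    ring
  simp only [h2, dlt]
  have h3 : ∀ j, (∑ i, th i * ∑ i', T i i' * col C S j i') ^ 2 =
      ∑ i, ∑ k, th i * th k * ((∑ i', T i i' * col C S j i') * (∑ k', T k k' * col C S j k')) := by
    intro j
    rw [sq, Finset.sum_mul_sum]
    refine Finset.sum_congr rfl fun i _ => ?_
    refine Finset.sum_congr rfl fun k _ => ?_
    ring
  simp only [h3]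
  simp only [Finset.mul_sum (s := (Finset.univ : Finset (Fin N ⊕ Fin d)))]
  simp only [Finset.sum_mul (s := (Finset.univ : Finset (Fin N ⊕ Fin d)))]
  have h4 : ∀ F : Fin N ⊕ Fin d → Fin d → Fin d → ℝ,
      ∑ i, ∑ k, ∑ j, F j i k = ∑ j, ∑ i, ∑ k, F j i k := by
    intro F
    rw [Finset.sum_congr rfl fun i _ => Finset.sum_comm, Finset.sum_comm]
  rw [h4]
  refine Finset.sum_congr rfl fun j _ => ?_
  rw [Finset.mul_sum]
  refine Finset.sum_congr rfl fun i _ => ?_
  rw [Finset.mul_sum]
  refine Finset.sum_congr rfl fun k _ => ?_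
  ring

theorem ae_mem (t0 : Tr0Stmt) (a : ℝ) : ∀ᵐ x ∂(tl a), x ∈ Set.Icc (0 : ℝ) 1 := by
  rw [ae_iff]
  exact (t0 a).2.2.2.2.1

theorem memLp_cont (t0 : Tr0Stmt) (a : ℝ) (f : ℝ → ℝ) (hf : Continuous f) :
    MemLp f 2 (tl a) := by
  have : IsProbabilityMeasure (tl a) := (t0 a).2.1
  obtain ⟨B, hB⟩ := (isCompact_Icc (a := (0 : ℝ)) (b := 1)).exists_bound_of_continuousOn
    hf.continuousOn
  refine MemLp.of_bound hf.aestronglyMeasurable B ?_
  filter_upwards [ae_mem t0 a] with x hx using hB x hx

theorem int_cont (t0 : Tr0Stmt) (a : ℝ) (f : ℝ → ℝ) (hf : Continuous f) :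
    Integrable f (tl a) := by
  have : IsProbabilityMeasure (tl a) := (t0 a).2.1
  exact (memLp_cont t0 a f hf).integrable (by norm_num)

theorem mean_tl (t0 : Tr0Stmt) (a : ℝ) : ∫ x, x ∂(tl a) = mm a := by
  rw [(t0 a).2.2.1 (fun x => x) continuous_id]
  rfl

theorem mean_sub (t0 : Tr0Stmt) (a δ : ℝ) : ∫ x, δ * (x - mm a) ∂(tl a) = 0 := by
  have : IsProbabilityMeasure (tl a) := (t0 a).2.1
  have hid : Integrable (fun x : ℝ => x) (tl a) := int_cont t0 a (fun x => x) continuous_id
  rw [integral_const_mul, integral_sub hid (integrable_const _), integral_const, mean_tl t0 a]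
  simp

theorem exp_tl (t0 : Tr0Stmt) (tu : TruStmt) (a δ : ℝ) (hδ : |δ| ≤ (1 + |a|) / 2) :
    ∫ x, Real.exp (δ * (x - mm a)) ∂(tl a) ≤ Real.exp (9 / 2 * δ ^ 2 / (1 + |a|) ^ 2) := by
  have h1 : ∫ x, Real.exp (δ * (x - mm a)) ∂(tl a) =
      Real.exp (-(δ * mm a)) * (MM (a + δ) / MM a) := by
    rw [(t0 a).2.2.1 (fun x => Real.exp (δ * (x - mm a))) (by fun_prop)]
    have : ∀ x : ℝ, Real.exp (δ * (x - mm a)) * Real.exp (a * x) =
        Real.exp (-(δ * mm a)) * Real.exp ((a + δ) * x) := by
      intro x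
      rw [← Real.exp_add, ← Real.exp_add]
      congr 1
      ring
    simp only [this]
    rw [intervalIntegral.integral_const_mul]
    unfold MM
    ring
  rw [h1]
  have hp := (t0 a).1
  have hp' := (t0 (a + δ)).1
  have h2 : MM (a + δ) / MM a = Real.exp (GG (a + δ) - GG a) := by
    unfold GG
    rw [Real.exp_sub, Real.exp_log hp, Real.exp_log hp']
  rw [h2, ← Real.exp_add]
  apply Real.exp_le_exp.2
  have := tu a δ hδ
  linarith

theorem mom (t0 : Tr0Stmt) (tu : TruStmt) (tv : TrvStmt) : MomStmt := by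
  intro N d C S e lam T hN
  obtain ⟨h, hh, hT⟩ := hN
  have hpr : ∀ j, IsProbabilityMeasure (tl (aa C S lam j)) := fun j => (t0 _).2.1
  have hP : IsProbabilityMeasure (pr C S lam) := by
    unfold pr; infer_instance
  have hYm : Measurable (YY C S e T) := by
    unfold YY
    fun_prop
  set m := T.mulVec (gg C S e lam) with hm
  have hquad : ∀ th : Fin d → ℝ, ∑ j, (1 / (1 + |aa C S lam j|)) ^ 2 * dlt C S T th j ^ 2 =
      ∑ i, h i * th i ^ 2 := fun th => quad_eq C S lam T h hT th
  have hup : ∀ th : Fin d → ℝ, ∑ i, h i * th i ^ 2 ≤ 4 * ∑ i, th i ^ 2 := by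
    intro th
    rw [Finset.mul_sum]
    exact Finset.sum_le_sum fun i _ => mul_le_mul_of_nonneg_right (hh i).2 (sq_nonneg _)
  have hlo : ∀ th : Fin d → ℝ, 1 / 2 * ∑ i, th i ^ 2 ≤ ∑ i, h i * th i ^ 2 := by
    intro th
    rw [Finset.mul_sum]
    exact Finset.sum_le_sum fun i _ => mul_le_mul_of_nonneg_right (hh i).1 (sq_nonneg _)
  have hlin : ∀ (th : Fin d → ℝ) (z : Fin N ⊕ Fin d → ℝ),
      ∑ i, th i * (YY C S e T z i - m i) =
        ∑ j, dlt C S T th j * (z j - mm (aa C S lam j)) := fun th z => lin_eq C S e lam T th z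
  refine ⟨Measure.isProbabilityMeasure_map hYm.aemeasurable, ?_, ?_⟩
  · intro th hth
    have hbd : ∀ j, |dlt C S T th j| ≤ (1 + |aa C S lam j|) / 2 := by
      intro j
      have h1 : (1 / (1 + |aa C S lam j|)) ^ 2 * dlt C S T th j ^ 2 ≤ 1 / 4 := by
        calc _ ≤ ∑ j, (1 / (1 + |aa C S lam j|)) ^ 2 * dlt C S T th j ^ 2 :=
              Finset.single_le_sum (f := fun j => (1 / (1 + |aa C S lam j|)) ^ 2 *
                dlt C S T th j ^ 2) (fun j _ => by positivity) (Finset.mem_univ j)
          _ = ∑ i, h i * th i ^ 2 := hquad th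
          _ ≤ 4 * ∑ i, th i ^ 2 := hup th
          _ ≤ 1 / 4 := by linarith
      have h0 : 0 < 1 + |aa C S lam j| := by positivity
      rw [← mul_pow, one_div_mul_eq_div] at h1
      have h2 : |dlt C S T th j / (1 + |aa C S lam j|)| ≤ 1 / 2 := by
        rw [← abs_of_pos (show (0 : ℝ) < 1 / 2 by norm_num)]
        apply sq_le_sq.1
        linarith
      rw [abs_div, abs_of_pos h0, div_le_iff₀ h0] at h2
      linarith
    have hexp : ∀ z : Fin N ⊕ Fin d → ℝ, Real.exp (∑ i, th i * (YY C S e T z i - m i)) =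
        ∏ j, Real.exp (dlt C S T th j * (z j - mm (aa C S lam j))) := by
      intro z
      rw [hlin, Real.exp_sum]
    have hmeas : Measurable fun y : Fin d → ℝ => Real.exp (∑ i, th i * (y i - m i)) := by
      fun_prop
    constructor
    · rw [integrable_map_measure hmeas.aestronglyMeasurable hYm.aemeasurable]
      show Integrable (fun z => Real.exp (∑ i, th i * (YY C S e T z i - m i))) (pr C S lam)
      simp only [hexp]
      unfold pr
      exact Integrable.fintype_prod (μ := fun j => tl (aa C S lam j))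
        (f := fun j x => Real.exp (dlt C S T th j * (x - mm (aa C S lam j))))
        fun j => int_cont t0 _ _ (by fun_prop)
    · rw [integral_map hYm.aemeasurable hmeas.aestronglyMeasurable]
      simp only [hexp]
      unfold pr
      rw [integral_fintype_prod_eq_prod
        (fun j x => Real.exp (dlt C S T th j * (x - mm (aa C S lam j))))]
      calc ∏ j, ∫ x, Real.exp (dlt C S T th j * (x - mm (aa C S lam j))) ∂(tl (aa C S lam j))
          ≤ ∏ j, Real.exp (9 / 2 * dlt C S T th j ^ 2 / (1 + |aa C S lam j|) ^ 2) :=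
            Finset.prod_le_prod (fun j _ => integral_nonneg fun x => (Real.exp_pos _).le)
              fun j _ => exp_tl t0 tu _ _ (hbd j)
        _ = Real.exp (9 / 2 * ∑ j, (1 / (1 + |aa C S lam j|)) ^ 2 * dlt C S T th j ^ 2) := by
            rw [← Real.exp_sum, Finset.mul_sum]
            congr 1
            refine Finset.sum_congr rfl fun j _ => ?_
            rw [div_pow, one_pow]
            ring
        _ ≤ Real.exp (18 * ∑ i, th i ^ 2) := by
            apply Real.exp_le_exp.2
            rw [hquad]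
            have := hup th
            linarith
  · intro th
    have hmeas : Measurable fun y : Fin d → ℝ => ∑ i, th i * (y i - m i) := by
      fun_prop
    have hint : ∀ j, Integrable (fun z : Fin N ⊕ Fin d → ℝ =>
        dlt C S T th j * (z j - mm (aa C S lam j))) (pr C S lam) := by
      intro j
      unfold pr
      exact integrable_comp_eval (μ := fun j => tl (aa C S lam j)) (i := j)
        (f := fun x => dlt C S T th j * (x - mm (aa C S lam j)))
        (int_cont t0 _ _ (by fun_prop))
    have hz : ∀ j, ∫ z : Fin N ⊕ Fin d → ℝ,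
        dlt C S T th j * (z j - mm (aa C S lam j)) ∂(pr C S lam) = 0 := by
      intro j
      unfold pr
      rw [integral_comp_eval (μ := fun j => tl (aa C S lam j)) (i := j)
        (f := fun x => dlt C S T th j * (x - mm (aa C S lam j)))
        (by exact (Continuous.aestronglyMeasurable (by fun_prop)))]
      exact mean_sub t0 _ _
    have hmean : ∫ z, ∑ j, dlt C S T th j * (z j - mm (aa C S lam j)) ∂(pr C S lam) = 0 := by
      rw [integral_finsetSum _ fun j _ => hint j]
      exact Finset.sum_eq_zero fun j _ => hz j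
    constructor
    · rw [integral_map hYm.aemeasurable hmeas.aestronglyMeasurable]
      simp only [hlin]
      exact hmean
    · rw [integral_map hYm.aemeasurable (hmeas.pow_const 2).aestronglyMeasurable]
      simp only [hlin]
      have hvar : ∫ z, (∑ j, dlt C S T th j * (z j - mm (aa C S lam j))) ^ 2 ∂(pr C S lam) =
          ∑ j, dlt C S T th j ^ 2 * ∫ x, (x - mm (aa C S lam j)) ^ 2 ∂(tl (aa C S lam j)) := by
        have h1 := variance_sum_pi (μ := fun j => tl (aa C S lam j))
          (X := fun j x => dlt C S T th j * (x - mm (aa C S lam j)))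
          (fun j => memLp_cont t0 _ _ (by fun_prop))
        rw [variance_eq_integral (by
          refine Measurable.aemeasurable ?_
          have hs : (∑ j, fun ω : Fin N ⊕ Fin d → ℝ =>
              dlt C S T th j * (ω j - mm (aa C S lam j))) =
              fun ω => ∑ j, dlt C S T th j * (ω j - mm (aa C S lam j)) := by
            funext ω
            simp only [Finset.sum_apply]
          rw [hs]
          fun_prop)] at h1
        have h2 : ∫ z : Fin N ⊕ Fin d → ℝ, (∑ j, fun ω : Fin N ⊕ Fin d → ℝ =>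
            dlt C S T th j * (ω j - mm (aa C S lam j))) z
            ∂(Measure.pi fun j => tl (aa C S lam j)) = 0 := by
          have := hmean
          unfold pr at this
          simpa only [Finset.sum_apply] using this
        rw [h2] at h1
        simp only [Finset.sum_apply, sub_zero] at h1
        unfold pr
        rw [h1]
        refine Finset.sum_congr rfl fun j _ => ?_
        rw [variance_eq_integral (Measurable.aemeasurable (by fun_prop)), mean_sub t0]
        simp only [sub_zero, mul_pow]
        rw [integral_const_mul]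
      rw [hvar]
      have h3 : ∀ j, 1 / 32 * ((1 / (1 + |aa C S lam j|)) ^ 2 * dlt C S T th j ^ 2) ≤
          dlt C S T th j ^ 2 * ∫ x, (x - mm (aa C S lam j)) ^ 2 ∂(tl (aa C S lam j)) := by
        intro j
        have h4 := tv (aa C S lam j)
        have h5 : 1 / (32 * (1 + |aa C S lam j|) ^ 2) =
            1 / 32 * (1 / (1 + |aa C S lam j|)) ^ 2 := by
          rw [div_pow, one_pow, one_div_mul_one_div]
        rw [h5] at h4
        nlinarith [mul_le_mul_of_nonneg_left h4 (sq_nonneg (dlt C S T th j))]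
      calc 1 / 64 * ∑ i, th i ^ 2 ≤ 1 / 32 * ∑ i, h i * th i ^ 2 := by
            have := hlo th
            linarith
        _ = ∑ j, 1 / 32 * ((1 / (1 + |aa C S lam j|)) ^ 2 * dlt C S T th j ^ 2) := by
            rw [← hquad, Finset.mul_sum]
        _ ≤ _ := Finset.sum_le_sum fun j _ => h3 j

end

end Pool.Agent.Helper32.FR
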